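import Pool.Agent.H626Z.KLike.Main

set_option autoImplicit false

namespace Pool.Agent.Results.MP_05361d_gt.AFiniteCover

open Pool.Agent.H626Z.KLike

universe u v

/-- For every class `𝒦` of contractible continua of covering dimension at most `k`, a continuum
is `𝒦`-like if and only if it is `3 ^ (2 k + 1)`-`𝒦`-like. -/
theorem result (k : ℕ) (𝒦 : Set TopCat.{u})
    (h𝒦 : ∀ K ∈ 𝒦, IsContinuum K ∧ ContractibleSpace K ∧ DimLE K k)
    (X : Type v) [TopologicalSpace X] (hX : IsContinuum X) :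
    IsKLike 𝒦 X ↔ IsNKLike (3 ^ (2 * k + 1)) 𝒦 X :=
  ⟨fun h 𝒰 h𝒰 _ => h 𝒰 h𝒰, main k 𝒦 h𝒦 X hX⟩

end Pool.Agent.Results.MP_05361d_gt.AFiniteCover
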